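import Pool.Agent.W458.MF.Gen9

/-!
# MP_5f0950_ag: the standard conjecture D for products of almost all members of families

Let `Y` be a smooth proper variety over an algebraic closure of a finite field such that the Tate
conjecture and the semisimplicity of the Frobenius endomorphism for the Tate classes hold for all
products of copies of `Y`, for example a projective space. Let `F i`, for `i` in a finite set, be
families of varieties `X_s` over `Y`, whose cohomology is the sum of the pull-back of the
cohomology of `Y` and of a subspace `P_s` of the cohomology of degree `dim X_s` (the kernel of the
Gysin map), with large symplectic or orthogonal monodromy. The orthogonal families may have odd or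
even rank, and members of both determinants, so that all smooth hypersurface sections of given
degree (large enough) and dimension of a projective space are covered.

Then for all `ε > 0` and all large `m`, for all but at most `ε * ∏ i, #S_i(m)` of the tuples `s` in
the product of the sets `S_i(m)` of the parameters with coordinates in the field with `p ^ m`
elements, homological and numerical equivalence coincide, in all codimensions, for **all products**
of copies of `Y` and of the members `X_{i, s_i}`.

The Tate conjecture is not assumed (and not proved) for the members with forced eigenvalues
`± q ^ (n / 2)`: the eigenvectors `v` for these eigenvalues may or may not be algebraic, but the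
external squares of `v` are, so that the products of such `v` which are algebraic form a group.
-/

open CategoryTheory AlgebraicGeometry Polynomial

universe u v

namespace Pool.Agent.Results.MP_5f0950_ag.AlmostAllMembers

open Pool.Agent.H914 Pool.Agent.W534 Pool.Agent.W458.MF VarClass Obj WeilCohomology
  Pool.Agent.W458.MF.Fam

/-- **Homological and numerical equivalence coincide on all products of almost all members of
families with large monodromy.** -/
theorem result {k : Type u} [Field k] {𝒱 : VarClass k} {ops : CycleOps 𝒱}
    (W : WeilCohomology.{u, v} ops) [IsAlgClosed W.K] (σ : W.K →+* ℂ) (p : ℕ)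
    (hp : p.Prime) (Φ : FrobSystem W p) (Y : 𝒱.Obj) (hRH : RiemannHyp Φ σ Y)
    (hint : ∀ μ : W.K, Module.End.HasEigenvalue (W.map (Φ.Fr Y)).toLinearMap μ → IsIntegral ℤ μ)
    (hY : ∀ Z, IsProductOf {Y} Z → ∀ j ≤ Z.dim, SemisimpleTateIn Φ Z j)
    {I : Type} [Fintype I] (F : I → Family W Y) (e : I → ℕ)
    (hF : ∀ i, HasLargeMonodromy (F i) Φ (e i)) (ε : ℝ) (hε : 0 < ε) :
    ∃ m₀ : ℕ, ∀ m ≥ m₀, ((exceptions F m fun Z => HomEqNum W Z).ncard : ℝ) ≤
      ε * ∏ i, (Nat.card ((F i).S m) : ℝ) :=
  final_d st_xsq W σ p hp Φ Y hRH hint hY F e hF ε hε

end Pool.Agent.Results.MP_5f0950_ag.AlmostAllMembers
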