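import Pool.Agent.W534.FamD

/-!
# The conjecture D for the product of a variety and a hyperplane section

Let `X` be a smooth proper variety of dimension `n ≥ 1` over an algebraically closed field, `i` a
morphism from a smooth proper variety `Y` of dimension `n - 1` to `X`, and `D` a divisor with
the class of `i_* [Y]` (for example `Y` a smooth hyperplane section of a projective variety `X`).
Let `W` be a Weil cohomology theory such that hard Lefschetz holds for `X` and `D`, and weak
Lefschetz holds for `i`. The following are equivalent.

1. Homological and numerical equivalence coincide for the cycles of codimension `n` (dimension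
   `n - 1`) on the variety `X × Y` of dimension `2 n - 1`.
2. Homological and numerical equivalence coincide for all cycles on `X × Y`.
3. The conjecture B holds for `X`, and homological and numerical equivalence coincide for the
   cycles of codimension `n - 1` on `X × Y`.

If they hold, then homological and numerical equivalence coincide for all cycles on `X` and for all
cycles on `Y`, numerically trivial correspondences of `X` (of any codimension) act as zero except
on the primitive part of the middle cohomology of `X`, with values in this part, and numerically
trivial correspondences of `Y` vanish on the image of `i^*` and have their values in the kernel of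
`i_*` (the vanishing cohomology).

So the conjecture D in one codimension, for a variety of dimension `2 n - 1`, implies the conjecture
B in dimension `n`; in the classical deduction of B for `X` from D the variety `X × X` of dimension
`2 n` is used. The reason is that the algebraic classes on `X × Y` form a representation of
`sl(2)` all of whose weights are odd.
-/

open CategoryTheory Pool.Agent.H914 Pool.Agent.H447 Pool.Agent.W534

universe u v

namespace Pool.Agent.Results.MP_5f0950_ag.HyperplaneProductD

/-- **Homological and numerical equivalence on `X × Y`, for a hyperplane section `Y` of `X`: one
codimension suffices, and it implies the conjecture B for `X`.** -/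
theorem result {k : Type u} [Field k] [IsAlgClosed k] {𝒱 : VarClass k} {ops : CycleOps 𝒱}
    (W : WeilCohomology.{u, v} ops) (X Y : 𝒱.Obj) (i : Y ⟶ X) (hdim : X.dim = Y.dim + 1)
    (D : X.Cycles) (hD : X.IsCyc 1 D) (hY : W.cl X (ops.push i Y.V.fundCycle) = W.cl X D)
    (hHL : HardLefschetz W X D) (hWL : WeakLefschetz W i) :
    List.TFAE [
      HomEqNumIn W (X.prod Y) X.dim,
      ∀ q, HomEqNumIn W (X.prod Y) q,
      LefschetzB W X D ∧ HomEqNumIn W (X.prod Y) Y.dim] ∧
    (HomEqNumIn W (X.prod Y) X.dim → ∀ q,
      HomEqNumIn W X q ∧ HomEqNumIn W Y q ∧ NumTrivialOnSquares W i D q) :=
  ⟨d_hyperplane hdim hD hY hHL hWL, fun h q =>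
    ⟨(homEqNum_factors hdim hD hY hHL hWL h q).1, (homEqNum_factors hdim hD hY hHL hWL h q).2,
      numTrivialOnSquares hdim hD hY hHL hWL h q⟩⟩

end Pool.Agent.Results.MP_5f0950_ag.HyperplaneProductD
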