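import Pool.Agent.W536.JMain

/-!
# Numerical and homological equivalence, and rational and linear independence of algebraic classes
-/

open CategoryTheory AlgebraicGeometry

universe u v w

namespace Pool.Agent.Results.MP_5f0950_ag.IndependentClasses

open Pool.Agent.H914 Pool.Agent.H914.VarClass Pool.Agent.W536.RR Pool.Agent.W536.JJ

/-- Let `P j` be a family of pieces of cohomology: subspaces `V j` of the cohomology of varieties
`X j` with Frobenius endomorphisms, pure, polarized by algebraic cycles, and with algebraic
projectors. Suppose that the products of an eigenvector with a dual eigenvector are algebraic, and
that the cohomology of every `X j` is generated by the spaces `V j` under algebraic operations.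
Then numerical and homological equivalence agree on all varieties whose cohomology is generated by
the spaces `V j` under algebraic operations if and only if on the products of the varieties `X j`
the algebraic classes which are linearly independent over the rational numbers are linearly
independent over the coefficient field of the cohomology. -/
theorem result {k : Type u} [Field k] {𝒱 : VarClass k} {ops : CycleOps 𝒱}
    (W : WeilCohomology.{u, v} ops) {ι : Type w} (P : ι → Piece W) (q : ℕ) (hq : q ≠ 0)
    (hP : ∀ j, IsPurePiece (P j) q)
    (hd : ∀ x, IsLabel P x → AlgebraicMonomials P {x, dualLabel P q x})
    (hX : ∀ j, IsGenerated P (P j).X) :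
    (∀ Y, IsGenerated P Y → HomEqNum W Y) ↔
      ∀ Q, IsProductOf (Set.range fun j => (P j).X) Q → IndependentClasses W Q :=
  main hq hP hd hX

end Pool.Agent.Results.MP_5f0950_ag.IndependentClasses
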