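import Pool.Agent.W547.DP.DFamilies

/-!
# The standard conjecture D for ordinary abelian varieties with small simple factors

Let `A₀` be an ordinary abelian variety over the field with `q = p ^ a` elements, isogenous (after a
finite extension of the base field) to a product of any number of absolutely simple abelian varieties
`A₀ i` of dimension at most three, with complex multiplication by the CM fields `E i = ℚ(π i)` generated
by the Frobenius endomorphisms `π i`, `[E i : ℚ] = 2 dim A₀ i ≤ 6`. Its canonical lift is isogenous to
the product `X` of the abelian varieties with complex multiplication by `E i` and the CM types `Φ i`
given by the embeddings `φ` for which `φ (π i)` has slope one. Suppose that two factors whose fields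
`E i` have the same Galois closure over `ℚ` have isomorphic CM types (so that they are isogenous over
the algebraic closure), unless these fields are Galois over `ℚ`. The condition holds for all powers of
`A₀` if it holds for `A₀`.

Let `z ∈ H^{2r}(A₀, K)` be a class (an alternating form in `2 r` variables on the rational Tate module
`V = K ⊗ H_1(X, ℚ)` of `A₀`; `K` is a field of characteristic `0`, for instance `ℚ_ℓ` or an algebraic
closure of it) with the following two properties:

* it is a Tate class over some finite extension of the base field: the `s`-th power of the Frobenius
  endomorphism multiplies it by `q ^ {r s}` for some `s > 0`; every linear combination, with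
  coefficients in `K`, of classes of algebraic cycles (defined over an algebraic closure) has
  this property;
* its cup product with every class of complementary degree in the ring generated by the classes of
  divisors on `X` and by the pull-backs, along homomorphisms `X → Y`, of the Weil classes of
  imaginary quadratic fields on abelian fourfolds and sixfolds `Y` of CM type and of split Weil
  type is zero. (The classes in this ring are algebraic by theorems of Markman; so
  every numerically trivial class has this property.)

Then `z = 0`. So numerical and homological equivalence coincide for `A₀`, for every `ℓ ≠ p`, and also
after extension of the coefficients of the cycles to `K`.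
-/

namespace Pool.Agent.Results.MP_5f0950_ag.OrdinarySmallFactors

open Module Pool.Agent.W547.KB Pool.Agent.W547.LD Pool.Agent.W530.NF Pool.Agent.W547.LN
open Pool.Agent.W547.DP

/-- `X` is the canonical lift of `A₀`, with factors of dimension at most three such that any two
factors whose fields have the same Galois closure have the same type (or these fields are Galois),
`V` is the rational Tate module of `A₀`, `F` the Frobenius endomorphism, `z` a Tate class over the
extension of degree `s` which is orthogonal to the ring generated by divisors and split Weil
classes. -/
theorem result (p : ℕ) [Fact p.Prime] (a : ℕ) (ha : 0 < a) (ν : PadicAlgCl p ≃+* ℂ)
    (X : CMAV) (hX : SmallFactors X) (π : X.H1) (hπ : IsCanonicalLift p a ν X π)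
    {K V : Type} [Field K] [CharZero K] [AddCommGroup V] [Module K V]
    (C : Comparison X K V) (F : V →ₗ[K] V) (hF : IsFrobeniusMap C π F)
    {r s : ℕ} (hs : 0 < s) (z : V [⋀^Fin (2 * r)]→ₗ[K] K)
    (htate : IsTateClassOver F (p ^ a) s z) (horth : IsOrthogonal C z) : z = 0 :=
  conjectureD_small X hX p a ha ν π hπ C F hF hs z htate horth

end Pool.Agent.Results.MP_5f0950_ag.OrdinarySmallFactors
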