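import Pool.Agent.W536.RMain

/-!
# Numerical and homological equivalence, and the rational relations between the eigenvalues of
Frobenius
-/

open CategoryTheory AlgebraicGeometry

universe u v w w'

namespace Pool.Agent.Results.MP_5f0950_ag.RationalRelations

open Pool.Agent.H914 Pool.Agent.H914.VarClass Pool.Agent.H281R3.HT Pool.Agent.W536.RR

/-- Let `W` be a Weil cohomology theory, `S i` a family of conjugations of it (for example the
Galois group of the field of `ℓ`-adic numbers, or the crystalline Frobenius) and `P j` a family of
pieces of cohomology: subspaces `V j` of the cohomology of varieties `X j` with Frobenius
endomorphisms, stable under the conjugations. Suppose that the products of an eigenvector with a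
dual eigenvector are algebraic, and that every relation between the eigenvalues of Frobenius which
looks like a Tate class and which is stable under the conjugations has a multiple in the group
generated by the algebraic relations. Then numerical and homological equivalence agree on all
varieties whose cohomology is generated by the spaces `V j` under algebraic operations. -/
theorem result {k : Type u} [Field k] {𝒱 : VarClass k} {ops : CycleOps 𝒱}
    (W : WeilCohomology.{u, v} ops) {κ : Type w'} (S : κ → Conjugation W)
    {ι : Type w} (P : ι → Piece W) (q : ℕ) (hP : IsFrobeniusFamily P q)
    (hS : ∀ i, StableUnder P (S i))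
    (hd : ∀ x, IsLabel P x → AlgebraicRelation P q {x, dualLabel P q x})
    (hr : ∀ s, RationalRelation P S q s → ∃ m ≥ 1, InAlgebraicGroup P q (m • s))
    (Y : 𝒱.Obj) (hY : IsGenerated P Y) : HomEqNum W Y :=
  main hP S hS hd hr hY

end Pool.Agent.Results.MP_5f0950_ag.RationalRelations
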